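import Pool.Agent.H320R2.LD.Final

/-!
# The Beck–Fiala problem for set systems with a pairing or a path of low crossing number
-/

set_option autoImplicit false

open Finset

namespace Pool.Agent.Results.MP_e8ee11_co.LowCrossingPaths

open Pool.Agent.H320R2.LD

/-- The number of elements of `A` that are not paired inside `A` by the involution `p`: elements
`i ∈ A` with `p i = i` or `p i ∉ A`. -/
def split {n : ℕ} (p : Fin n → Fin n) (A : Finset (Fin n)) : ℕ :=
  (A.filter (fun i => p i = i ∨ p i ∉ A)).card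

/-- The number of edges `{i, i + 1}` of the path `0, 1, …, n - 1` that `A` crosses, that is, of
which `A` contains exactly one end. -/
def cross {n : ℕ} (A : Finset (Fin n)) : ℕ :=
  ((Finset.univ : Finset (Fin n × Fin n)).filter
    (fun e => (e.1 : ℕ) + 1 = e.2 ∧ ¬ (e.1 ∈ A ↔ e.2 ∈ A))).card

theorem pairing :
    ∃ C : ℝ, 0 < C ∧
      ∀ (n m t k : ℕ) (S : Fin m → Finset (Fin n)) (p : Fin n → Fin n), (∀ i, p (p i) = i) →
        (∀ i : Fin n, (Finset.univ.filter (fun j : Fin m => i ∈ S j)).card ≤ t) →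
        (∀ j : Fin m, split p (S j) ≤ k) →
        ∃ χ : Fin n → ℤ, (∀ i, χ i = 1 ∨ χ i = -1) ∧
          ∀ j : Fin m, ((|∑ i ∈ S j, χ i| : ℤ) : ℝ) ≤
            C * Real.sqrt ((t : ℝ) + (split p (S j) : ℝ) + (k : ℝ) ^ (2 / 3 : ℝ)) := by
  obtain ⟨C, hC, h⟩ := main
  refine ⟨C * Real.sqrt 3, by positivity, ?_⟩
  intro n m t k S p hp h1 h2
  set τ : ℝ := max 1 (max ((2 * t : ℕ) : ℝ) ((k : ℝ) ^ (2 / 3 : ℝ))) with hτ
  have hτ1 : 1 ≤ τ := le_max_left _ _
  have hτ0 : 0 < τ := by linarith
  have hτt : ((2 * t : ℕ) : ℝ) ≤ τ := (le_max_left _ _).trans (le_max_right _ _)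
  have hτk : (k : ℝ) ^ (2 / 3 : ℝ) ≤ τ := (le_max_right _ _).trans (le_max_right _ _)
  have hk0 : (0 : ℝ) ≤ (k : ℝ) := Nat.cast_nonneg k
  have hk32 : (k : ℝ) ≤ τ ^ (3 / 2 : ℝ) := by
    have e1 : ((k : ℝ) ^ (2 / 3 : ℝ)) ^ (3 / 2 : ℝ) = k := by
      rw [← Real.rpow_mul hk0]; norm_num
    calc (k : ℝ) = ((k : ℝ) ^ (2 / 3 : ℝ)) ^ (3 / 2 : ℝ) := e1.symm
      _ ≤ τ ^ (3 / 2 : ℝ) :=
          Real.rpow_le_rpow (Real.rpow_nonneg hk0 _) hτk (by norm_num)
  have ht32 : ((2 * t : ℕ) : ℝ) ≤ τ ^ (3 / 2 : ℝ) := by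
    calc ((2 * t : ℕ) : ℝ) ≤ τ := hτt
      _ = τ ^ (1 : ℝ) := (Real.rpow_one _).symm
      _ ≤ τ ^ (3 / 2 : ℝ) := Real.rpow_le_rpow_of_exponent_le hτ1 (by norm_num)
  -- the reduced matrix
  set B : Fin m → Fin n → ℝ := fun j i =>
    if p i = i then (if i ∈ S j then 1 else 0)
    else if i < p i then (if i ∈ S j then 1 else 0) - (if p i ∈ S j then 1 else 0) else 0 with hB
  have hBsq : ∀ j i, B j i ^ 2 ≤ 1 := by
    intro j i
    simp only [hB]
    split_ifs <;> norm_num
  have hBrow : ∀ j i, B j i ≠ 0 → ∃ a ∈ (S j).filter (fun i => p i = i ∨ p i ∉ S j),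
      min a (p a) = i := by
    intro j i hne
    simp only [hB] at hne
    by_cases hpi : p i = i
    · rw [if_pos hpi] at hne
      by_cases hi : i ∈ S j
      · exact ⟨i, mem_filter.2 ⟨hi, Or.inl hpi⟩, by rw [hpi, min_self]⟩
      · simp [hi] at hne
    · rw [if_neg hpi] at hne
      by_cases hlt : i < p i
      · rw [if_pos hlt] at hne
        by_cases hi : i ∈ S j
        · by_cases hi' : p i ∈ S j
          · simp [hi, hi'] at hne
          · exact ⟨i, mem_filter.2 ⟨hi, Or.inr hi'⟩, min_eq_left hlt.le⟩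
        · by_cases hi' : p i ∈ S j
          · refine ⟨p i, mem_filter.2 ⟨hi', Or.inr (by rwa [hp])⟩, ?_⟩
            rw [hp]
            exact min_eq_right hlt.le
          · simp [hi, hi'] at hne
      · simp [hlt] at hne
  have hBcol : ∀ j i, B j i ≠ 0 → i ∈ S j ∨ p i ∈ S j := by
    intro j i hne
    by_contra hcon
    push Not at hcon
    apply hne
    simp [hB, hcon.1, hcon.2]
  have hrow : ∀ j, (univ.filter (fun i => B j i ≠ 0)).card ≤ split p (S j) := by
    intro j
    unfold split
    refine le_trans (card_le_card ?_)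
      (card_image_le (s := (S j).filter (fun i => p i = i ∨ p i ∉ S j)) (f := fun a => min a (p a)))
    intro i hi
    obtain ⟨a, ha, he⟩ := hBrow j i (mem_filter.1 hi).2
    exact mem_image.2 ⟨a, ha, he⟩
  have hcol : ∀ i, (univ.filter (fun j => B j i ≠ 0)).card ≤ 2 * t := by
    intro i
    have hsub : univ.filter (fun j => B j i ≠ 0) ⊆
        univ.filter (fun j => i ∈ S j) ∪ univ.filter (fun j => p i ∈ S j) := by
      intro j hj
      rcases hBcol j i (mem_filter.1 hj).2 with h3 | h3
      · exact mem_union_left _ (mem_filter.2 ⟨mem_univ _, h3⟩)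
      · exact mem_union_right _ (mem_filter.2 ⟨mem_univ _, h3⟩)
    have := (card_le_card hsub).trans (card_union_le _ _)
    have := h1 i
    have := h1 (p i)
    omega
  -- row scale
  set w : Fin m → ℝ := fun j => max τ (split p (S j) : ℝ) with hw
  have hwτ : ∀ j, τ ≤ w j := fun j => le_max_left _ _
  have hw0 : ∀ j, 0 < w j := fun j => lt_of_lt_of_le hτ0 (hwτ j)
  set A : Fin m → Fin n → ℝ := fun j i => B j i / Real.sqrt (w j) with hA
  have hAsq : ∀ j i, A j i ^ 2 = B j i ^ 2 / w j := by
    intro j i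
    simp only [hA]
    rw [div_pow, Real.sq_sqrt (hw0 j).le]
  have hAne : ∀ j i, A j i ≠ 0 → B j i ≠ 0 := by
    intro j i hne h0
    apply hne
    simp only [hA, h0, zero_div]
  have hBle : ∀ j i, B j i ^ 2 ≤ if B j i ≠ 0 then 1 else 0 := by
    intro j i
    by_cases h0 : B j i = 0
    · simp [h0]
    · simp only [ne_eq, h0, not_false_eq_true, if_true]
      exact hBsq j i
  have hadm : Adm τ A := by
    refine ⟨fun j i => ?_, fun j => ?_, fun i => ?_, fun j => ?_, fun i => ?_⟩
    · rw [hAsq, div_mul_eq_mul_div, div_le_one (hw0 j)]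
      calc B j i ^ 2 * τ ≤ 1 * τ := mul_le_mul_of_nonneg_right (hBsq j i) hτ0.le
        _ ≤ w j := by rw [one_mul]; exact hwτ j
    · simp_rw [hAsq]
      rw [← Finset.sum_div, div_le_one (hw0 j)]
      calc ∑ i, B j i ^ 2 ≤ ∑ i, (if B j i ≠ 0 then (1 : ℝ) else 0) :=
            Finset.sum_le_sum fun i _ => hBle j i
        _ = ((univ.filter (fun i => B j i ≠ 0)).card : ℝ) := by
            rw [Finset.sum_boole]
        _ ≤ (split p (S j) : ℝ) := by exact_mod_cast hrow j
        _ ≤ w j := le_max_right _ _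
    · simp_rw [hAsq]
      calc ∑ j, B j i ^ 2 / w j
          ≤ ∑ j, (if B j i ≠ 0 then (1 : ℝ) else 0) / τ := by
            refine Finset.sum_le_sum fun j _ => ?_
            refine div_le_div₀ ?_ (hBle j i) hτ0 (hwτ j)
            split_ifs <;> norm_num
        _ = ((univ.filter (fun j => B j i ≠ 0)).card : ℝ) / τ := by
            rw [← Finset.sum_div, Finset.sum_boole]
        _ ≤ 1 := by
            rw [div_le_one hτ0]
            refine le_trans ?_ hτt
            exact_mod_cast hcol i
    · refine le_trans ?_ (le_trans (Nat.cast_le.2 (h2 j)) hk32)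
      rw [Nat.cast_le]
      refine le_trans (Finset.card_le_card fun i hi => ?_) (hrow j)
      rw [Finset.mem_filter] at hi ⊢
      exact ⟨hi.1, hAne j i hi.2⟩
    · refine le_trans ?_ ht32
      rw [Nat.cast_le]
      refine le_trans (Finset.card_le_card fun j hj => ?_) (hcol i)
      rw [Finset.mem_filter] at hj ⊢
      exact ⟨hj.1, hAne j i hj.2⟩
  obtain ⟨x, hx1, hx2⟩ := h τ hτ1 (Fin n) (Fin m) A hadm
  -- the colouring
  set y : Fin n → ℝ := fun i => if i ≤ p i then x i else - x (p i) with hy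
  have hy1 : ∀ i, y i = 1 ∨ y i = -1 := by
    intro i
    simp only [hy]
    split_ifs
    · exact hx1 i
    · rcases hx1 (p i) with h3 | h3
      · exact Or.inr (by rw [h3])
      · exact Or.inl (by rw [h3]; norm_num)
  refine ⟨fun i => if y i = 1 then 1 else -1, fun i => ?_, fun j => ?_⟩
  · show (if y i = 1 then (1 : ℤ) else -1) = 1 ∨ (if y i = 1 then (1 : ℤ) else -1) = -1
    split_ifs
    · exact Or.inl rfl
    · exact Or.inr rfl
  push_cast
  have e1 : ∑ i ∈ S j, (if y i = 1 then (1 : ℝ) else -1) = ∑ i ∈ S j, y i := by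
    refine Finset.sum_congr rfl fun i _ => ?_
    rcases hy1 i with h3 | h3
    · rw [if_pos h3, h3]
    · rw [if_neg (by rw [h3]; norm_num), h3]
  rw [e1]
  -- the reduction
  have e2 : ∑ i ∈ S j, y i = ∑ i, B j i * x i := by
    set s : Fin n → ℝ := fun i => if i ∈ S j then 1 else 0 with hs
    have e3 : ∑ i ∈ S j, y i = ∑ i, s i * y i := by
      simp only [hs, ite_mul, one_mul, zero_mul]
      rw [Finset.sum_ite_mem, Finset.univ_inter]
    have e4 : ∀ i, s i * y i = (if p i = i then s i * x i else 0) +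
        (if i < p i then s i * x i else 0) - (if p i < i then s i * x (p i) else 0) := by
      intro i
      rcases lt_trichotomy i (p i) with h3 | h3 | h3
      · rw [if_neg h3.ne', if_pos h3, if_neg (not_lt.2 h3.le)]
        simp [hy, h3.le]
      · rw [if_pos h3.symm, if_neg (by rw [← h3]; exact lt_irrefl _),
          if_neg (by rw [← h3]; exact lt_irrefl _)]
        simp [hy, h3.le]
      · rw [if_neg h3.ne, if_neg (not_lt.2 h3.le), if_pos h3]
        simp [hy, not_le.2 h3]
    have e5 : ∑ i, (if p i < i then s i * x (p i) else 0) =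
        ∑ i, (if i < p i then s (p i) * x i else 0) := by
      refine Finset.sum_nbij' p p (fun i _ => mem_univ _) (fun i _ => mem_univ _)
        (fun i _ => hp i) (fun i _ => hp i) ?_
      intro i _
      simp only [hp]
    rw [e3, Finset.sum_congr rfl (fun i _ => e4 i), Finset.sum_sub_distrib, e5,
      ← Finset.sum_sub_distrib]
    refine Finset.sum_congr rfl fun i _ => ?_
    simp only [hB, hs]
    by_cases h3 : p i = i
    · simp [h3]
    · by_cases h4 : i < p i
      · simp only [h3, h4, if_true, if_false]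
        ring
      · simp [h3, h4]
  have hsq : 0 < Real.sqrt (w j) := Real.sqrt_pos.2 (hw0 j)
  have h3 : ∑ v, A j v * x v = 1 / Real.sqrt (w j) * ∑ i ∈ S j, y i := by
    rw [e2, Finset.mul_sum]
    refine Finset.sum_congr rfl fun i _ => ?_
    simp only [hA]
    ring
  rcases Nat.eq_zero_or_pos (split p (S j)) with he | hpos
  · have hz : ∀ i, B j i = 0 := by
      intro i
      by_contra hne
      have := hrow j
      rw [he] at this
      have hmem : i ∈ univ.filter (fun i => B j i ≠ 0) := mem_filter.2 ⟨mem_univ _, hne⟩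
      have := Finset.card_pos.2 ⟨i, hmem⟩
      omega
    rw [e2]
    simp only [hz, zero_mul, Finset.sum_const_zero, abs_zero]
    positivity
  · have h4 := hx2 j
    rw [h3, abs_mul, abs_of_pos (by positivity : (0 : ℝ) < 1 / Real.sqrt (w j)), one_div,
      inv_mul_le_iff₀ hsq] at h4
    refine h4.trans ?_
    have hcard : (1 : ℝ) ≤ (split p (S j) : ℝ) := by exact_mod_cast hpos
    have h5 : w j ≤ 3 * ((t : ℝ) + (split p (S j) : ℝ) + (k : ℝ) ^ (2 / 3 : ℝ)) := by
      have hkp : 0 ≤ (k : ℝ) ^ (2 / 3 : ℝ) := Real.rpow_nonneg hk0 _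
      have ht0 : (0 : ℝ) ≤ (t : ℝ) := Nat.cast_nonneg t
      simp only [hw, hτ]
      refine max_le (max_le ?_ (max_le ?_ ?_)) ?_
      · linarith
      · push_cast
        linarith
      · linarith
      · linarith
    calc Real.sqrt (w j) * C
        ≤ Real.sqrt (3 * ((t : ℝ) + (split p (S j) : ℝ) + (k : ℝ) ^ (2 / 3 : ℝ))) * C :=
          mul_le_mul_of_nonneg_right (Real.sqrt_le_sqrt h5) hC.le
      _ = C * Real.sqrt 3 * Real.sqrt ((t : ℝ) + (split p (S j) : ℝ) + (k : ℝ) ^ (2 / 3 : ℝ)) := by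
          rw [Real.sqrt_mul (by norm_num)]; ring

/-- consecutive elements are paired: `0 ↔ 1`, `2 ↔ 3`, … -/
def mate (n : ℕ) (i : Fin n) : Fin n :=
  if h : (i : ℕ) % 2 = 0 then (if h' : (i : ℕ) + 1 < n then ⟨i + 1, h'⟩ else i)
  else ⟨i - 1, by omega⟩

theorem mate_val (n : ℕ) (i : Fin n) : ((mate n i : Fin n) : ℕ) =
    if (i : ℕ) % 2 = 0 then (if (i : ℕ) + 1 < n then (i : ℕ) + 1 else i) else (i : ℕ) - 1 := by
  unfold mate
  split_ifs <;> rfl

theorem mate_mate (n : ℕ) (i : Fin n) : mate n (mate n i) = i := by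
  apply Fin.ext
  rw [mate_val, mate_val]
  have := i.2
  split_ifs <;> omega

theorem split_le (n : ℕ) (A : Finset (Fin n)) : split (mate n) A ≤ cross A + 1 := by
  classical
  unfold split
  have hsub : A.filter (fun i => mate n i = i ∨ mate n i ∉ A) ⊆
      A.filter (fun i => mate n i = i) ∪ A.filter (fun i => mate n i ≠ i ∧ mate n i ∉ A) := by
    intro i hi
    obtain ⟨h1, h2⟩ := mem_filter.1 hi
    by_cases h3 : mate n i = i
    · exact mem_union_left _ (mem_filter.2 ⟨h1, h3⟩)
    · rcases h2 with h2 | h2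
      · exact absurd h2 h3
      · exact mem_union_right _ (mem_filter.2 ⟨h1, h3, h2⟩)
  have h1 : (A.filter (fun i => mate n i = i)).card ≤ 1 := by
    rw [Finset.card_le_one]
    intro a ha b hb
    have ha' := congrArg Fin.val (mem_filter.1 ha).2
    have hb' := congrArg Fin.val (mem_filter.1 hb).2
    rw [mate_val] at ha' hb'
    apply Fin.ext
    have := a.2
    have := b.2
    split_ifs at ha' hb' <;> omega
  have h2 : (A.filter (fun i => mate n i ≠ i ∧ mate n i ∉ A)).card ≤ cross A := by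
    unfold cross
    refine Finset.card_le_card_of_injOn (fun i => (min i (mate n i), max i (mate n i))) ?_ ?_
    · intro i hi
      obtain ⟨h3, h4, h5⟩ := mem_filter.1 (Finset.mem_coe.1 hi)
      rw [Finset.mem_coe, mem_filter]
      refine ⟨mem_univ _, ?_, ?_⟩
      · have h6 := mate_val n i
        have h7 : (i : ℕ) + 1 = (mate n i : ℕ) ∨ (mate n i : ℕ) + 1 = i := by
          have h8 : (mate n i : ℕ) ≠ i := fun h => h4 (Fin.ext h)
          split_ifs at h6 <;> omega
        rcases h7 with h7 | h7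
        · have h8 : i ≤ mate n i := by
            rw [Fin.le_def]
            omega
          dsimp only
          rw [min_eq_left h8, max_eq_right h8]
          exact h7
        · have h8 : mate n i ≤ i := by
            rw [Fin.le_def]
            omega
          dsimp only
          rw [min_eq_right h8, max_eq_left h8]
          exact h7
      · rcases le_total i (mate n i) with h8 | h8
        · dsimp only
          rw [min_eq_left h8, max_eq_right h8]
          exact fun h => h5 (h.1 h3)
        · dsimp only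
          rw [min_eq_right h8, max_eq_left h8]
          exact fun h => h5 (h.2 h3)
    · intro a ha b hb hab
      obtain ⟨h3, h4, h5⟩ := mem_filter.1 (Finset.mem_coe.1 ha)
      obtain ⟨h3', h4', h5'⟩ := mem_filter.1 (Finset.mem_coe.1 hb)
      have e1 : min a (mate n a) = min b (mate n b) := congrArg Prod.fst hab
      have e2 : max a (mate n a) = max b (mate n b) := congrArg Prod.snd hab
      rcases le_total a (mate n a) with h8 | h8 <;> rcases le_total b (mate n b) with h9 | h9
      · rw [min_eq_left h8, min_eq_left h9] at e1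
        exact e1
      · rw [min_eq_left h8, min_eq_right h9] at e1
        rw [e1] at h3
        exact absurd h3 h5'
      · rw [min_eq_right h8, min_eq_left h9] at e1
        rw [← e1] at h3'
        exact absurd h3' h5
      · rw [max_eq_left h8, max_eq_left h9] at e2
        exact e2
  have := (card_le_card hsub).trans (card_union_le _ _)
  omega

/-- **Beck–Fiala for set systems that cross few pairs of a pairing, or few edges of a path.**
There is an absolute constant `C` such that for all `n`, `m`, `t`, `k` and all systems of `m` sets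
on `n` elements of maximum degree at most `t`:

(1) if `p` is an involution of the elements and every set contains at most `k` elements `i` with
`p i = i` or `p i` outside the set, there is a colouring `χ` with
`|χ(S)| ≤ C * sqrt (t + split_p(S) + k^(2/3))` for every set `S`;

(2) if every set crosses at most `k` edges of the path `0, 1, …, n - 1` (so it is a union of at
most `k / 2 + 1` intervals), there is a colouring `χ` with
`|χ(S)| ≤ C * sqrt (t + cross(S) + k^(2/3))` for every set `S`.

There is no bound on the sizes of the sets. -/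
theorem result :
    ∃ C : ℝ, 0 < C ∧
      (∀ (n m t k : ℕ) (S : Fin m → Finset (Fin n)) (p : Fin n → Fin n), (∀ i, p (p i) = i) →
        (∀ i : Fin n, (Finset.univ.filter (fun j : Fin m => i ∈ S j)).card ≤ t) →
        (∀ j : Fin m, split p (S j) ≤ k) →
        ∃ χ : Fin n → ℤ, (∀ i, χ i = 1 ∨ χ i = -1) ∧
          ∀ j : Fin m, ((|∑ i ∈ S j, χ i| : ℤ) : ℝ) ≤
            C * Real.sqrt ((t : ℝ) + (split p (S j) : ℝ) + (k : ℝ) ^ (2 / 3 : ℝ))) ∧
      (∀ (n m t k : ℕ) (S : Fin m → Finset (Fin n)),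
        (∀ i : Fin n, (Finset.univ.filter (fun j : Fin m => i ∈ S j)).card ≤ t) →
        (∀ j : Fin m, cross (S j) ≤ k) →
        ∃ χ : Fin n → ℤ, (∀ i, χ i = 1 ∨ χ i = -1) ∧
          ∀ j : Fin m, ((|∑ i ∈ S j, χ i| : ℤ) : ℝ) ≤
            C * Real.sqrt ((t : ℝ) + (cross (S j) : ℝ) + (k : ℝ) ^ (2 / 3 : ℝ))) := by
  obtain ⟨C, hC, h⟩ := pairing
  have hs3 : (1 : ℝ) ≤ Real.sqrt 3 := by
    rw [Real.one_le_sqrt]
    norm_num
  refine ⟨C * Real.sqrt 3, by positivity, ?_, ?_⟩
  · intro n m t k S p hp h1 h2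
    obtain ⟨χ, h3, h4⟩ := h n m t k S p hp h1 h2
    refine ⟨χ, h3, fun j => (h4 j).trans ?_⟩
    refine mul_le_mul_of_nonneg_right ?_ (Real.sqrt_nonneg _)
    exact le_mul_of_one_le_right hC.le hs3
  · intro n m t k S h1 h2
    rcases Nat.eq_zero_or_pos t with ht | ht
    · refine ⟨fun _ => 1, fun _ => Or.inl rfl, fun j => ?_⟩
      have he : S j = ∅ := by
        rw [Finset.eq_empty_iff_forall_notMem]
        intro i hi
        have h3 := h1 i
        have hmem : j ∈ univ.filter (fun j : Fin m => i ∈ S j) := mem_filter.2 ⟨mem_univ _, hi⟩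
        have := Finset.card_pos.2 ⟨j, hmem⟩
        omega
      rw [he]
      simp only [Finset.sum_empty, abs_zero, Int.cast_zero]
      positivity
    obtain ⟨χ, h3, h4⟩ := h n m t (k + 1) S (mate n) (mate_mate n) h1
      (fun j => (split_le n (S j)).trans (Nat.add_le_add_right (h2 j) 1))
    refine ⟨χ, h3, fun j => (h4 j).trans ?_⟩
    have htR : (1 : ℝ) ≤ t := by exact_mod_cast ht
    have h5 : (split (mate n) (S j) : ℝ) ≤ cross (S j) + 1 := by exact_mod_cast split_le n (S j)
    have h6 : (((k + 1 : ℕ) : ℝ)) ^ (2 / 3 : ℝ) ≤ (k : ℝ) ^ (2 / 3 : ℝ) + 1 := by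
      push_cast
      have := Real.rpow_add_le_add_rpow (Nat.cast_nonneg k : (0 : ℝ) ≤ k) (zero_le_one)
        (by norm_num : (0 : ℝ) ≤ 2 / 3) (by norm_num : (2 / 3 : ℝ) ≤ 1)
      rwa [Real.one_rpow] at this
    have h7 : (0 : ℝ) ≤ (k : ℝ) ^ (2 / 3 : ℝ) := by positivity
    have h8 : (0 : ℝ) ≤ (cross (S j) : ℝ) := Nat.cast_nonneg _
    calc C * Real.sqrt ((t : ℝ) + (split (mate n) (S j) : ℝ) + ((k + 1 : ℕ) : ℝ) ^ (2 / 3 : ℝ))
        ≤ C * Real.sqrt (3 * ((t : ℝ) + (cross (S j) : ℝ) + (k : ℝ) ^ (2 / 3 : ℝ))) := by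
          refine mul_le_mul_of_nonneg_left (Real.sqrt_le_sqrt ?_) hC.le
          linarith
      _ = C * Real.sqrt 3 * Real.sqrt ((t : ℝ) + (cross (S j) : ℝ) + (k : ℝ) ^ (2 / 3 : ℝ)) := by
          rw [Real.sqrt_mul (by norm_num)]; ring

end Pool.Agent.Results.MP_e8ee11_co.LowCrossingPaths
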