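import Pool.Agent.Q275.DualVC
import Pool.Agent.Q275.Pairing3

/-!
# The Beck-Fiala problem: large sets of bounded dual VC-dimension

Let `S_1, ..., S_m` be subsets of a set of `n` elements, each element in at most `t` of them, let
`d ≥ 2` and let `L` be a part of the indices such that no `d + 1` of the sets with index in `L` are
dually shattered (that is, have all `2^(d+1)` cells of their Venn diagram nonempty). Let `K` be the
number of different patterns of membership in the sets with index in `L`, so `K ≤ n`. The other sets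
are arbitrary, with at most `k` elements. Then for every `κ > 9` some colouring has
`|χ(S_j)| ≤ C sqrt (t + K^(1-1/d) + (log k)^κ)` for `j` in `L` and
`|χ(S_j)| ≤ C sqrt (t + |S_j| + (log K)^κ + (log k)^κ)` for the other `j`, where `C` depends only on
`κ`.

Proof. By the packing lemma of Haussler (starting files) any `N` elements contain two elements
separated by sets of total weight at most `22 W / N^(1/d)`, if `W` is the total weight of the sets
with index in `L`, and two elements that are not separated at all if `N > K`. As in the argument of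
Welzl, doubling the weights of the sets that separate the chosen pairs gives a perfect matching of the
elements such that every set with index in `L` separates `O (K^(1-1/d) + log t)` of its pairs. A
colouring which is opposite on the pairs of the matching is a colouring of a system with rows of
`split p (S_j)` nonzero entries (as in the hand-in LowCrossingPaths of this problem), and for such a
system the theorem behind the hand-in LargeSetsPolylog of this problem applies.
-/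

set_option autoImplicit false

open Finset

namespace Pool.Agent.Results.MP_e8ee11_co.DualVCDimension

open Pool.Agent.Q275.BF

theorem fixed_le {n : ℕ} (p : Fin n → Fin n) (A : Finset (Fin n))
    (hf : (univ.filter (fun i => p i = i)).card ≤ 1) :
    LowCrossingPaths.split p A ≤ 1 + (A.filter (fun i => p i ∉ A)).card := by
  classical
  unfold LowCrossingPaths.split
  have h1 : A.filter (fun i => p i = i ∨ p i ∉ A) ⊆
      (univ.filter (fun i => p i = i)) ∪ A.filter (fun i => p i ∉ A) := by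
    intro i hi
    rw [mem_filter] at hi
    rw [mem_union, mem_filter, mem_filter]
    rcases hi.2 with h | h
    · exact Or.inl ⟨mem_univ _, h⟩
    · exact Or.inr ⟨hi.1, h⟩
  exact (card_le_card h1).trans ((card_union_le _ _).trans (by omega))

theorem log_le (n d : ℕ) (hd : 2 ≤ d) (hn : 1 ≤ n) :
    Real.log n ≤ 2 * (n : ℝ) ^ (1 - 1 / (d : ℝ)) := by
  have hn0 : (0 : ℝ) < n := by exact_mod_cast hn
  have hn1 : (1 : ℝ) ≤ n := by exact_mod_cast hn
  have h1 : Real.log n = 2 * Real.log ((n : ℝ) ^ (1 / 2 : ℝ)) := by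
    rw [Real.log_rpow hn0]
    ring
  have h2 : Real.log ((n : ℝ) ^ (1 / 2 : ℝ)) ≤ (n : ℝ) ^ (1 / 2 : ℝ) - 1 :=
    Real.log_le_sub_one_of_pos (Real.rpow_pos_of_pos hn0 _)
  have h3 : (n : ℝ) ^ (1 / 2 : ℝ) ≤ (n : ℝ) ^ (1 - 1 / (d : ℝ)) := by
    refine Real.rpow_le_rpow_of_exponent_le hn1 ?_
    have hd' : (2 : ℝ) ≤ d := by exact_mod_cast hd
    have : 1 / (d : ℝ) ≤ 1 / 2 := one_div_le_one_div_of_le (by norm_num) hd'
    linarith
  rw [h1]
  linarith

theorem number {n m t : ℕ} (S : Fin m → Finset (Fin n)) (L : Finset (Fin m))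
    (ht : ∀ i : Fin n, (univ.filter (fun j : Fin m => i ∈ S j)).card ≤ t) :
    (L.filter (fun j => (S j).Nonempty)).card ≤ patterns S L * t := by
  classical
  unfold patterns
  have h1 : L.filter (fun j => (S j).Nonempty) ⊆
      (univ.image (fun i : Fin n => L.filter (fun j => i ∈ S j))).biUnion id := by
    intro j hj
    obtain ⟨hL, i, hi⟩ := mem_filter.1 hj
    rw [mem_biUnion]
    exact ⟨L.filter (fun j => i ∈ S j), mem_image_of_mem _ (mem_univ i), mem_filter.2 ⟨hL, hi⟩⟩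
  refine (card_le_card h1).trans (card_biUnion_le_card_mul _ _ _ ?_)
  intro c hc
  obtain ⟨i, -, rfl⟩ := mem_image.1 hc
  refine le_trans (card_le_card ?_) (ht i)
  exact filter_subset_filter _ (subset_univ L)


theorem add4_rpow {a b c e κ : ℝ} (ha : 0 ≤ a) (hb : 0 ≤ b) (hc : 0 ≤ c) (he : 0 ≤ e)
    (hκ : 0 ≤ κ) :
    (a + b + c + e) ^ κ ≤ 4 ^ κ * (a ^ κ + b ^ κ + c ^ κ + e ^ κ) := by
  have hA := Real.rpow_nonneg ha κ
  have hB := Real.rpow_nonneg hb κ
  have hC := Real.rpow_nonneg hc κ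
  have hE := Real.rpow_nonneg he κ
  obtain ⟨M, hM0, hM1, hM2⟩ : ∃ M : ℝ, 0 ≤ M ∧ a + b + c + e ≤ 4 * M ∧
      M ^ κ ≤ a ^ κ + b ^ κ + c ^ κ + e ^ κ := by
    rcases le_total a b with h1 | h1 <;> rcases le_total c e with h2 | h2
    · rcases le_total b e with h3 | h3
      · exact ⟨e, he, by linarith, by linarith⟩
      · exact ⟨b, hb, by linarith, by linarith⟩
    · rcases le_total b c with h3 | h3
      · exact ⟨c, hc, by linarith, by linarith⟩
      · exact ⟨b, hb, by linarith, by linarith⟩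
    · rcases le_total a e with h3 | h3
      · exact ⟨e, he, by linarith, by linarith⟩
      · exact ⟨a, ha, by linarith, by linarith⟩
    · rcases le_total a c with h3 | h3
      · exact ⟨c, hc, by linarith, by linarith⟩
      · exact ⟨a, ha, by linarith, by linarith⟩
  calc (a + b + c + e) ^ κ ≤ (4 * M) ^ κ := Real.rpow_le_rpow (by linarith) hM1 hκ
    _ = 4 ^ κ * M ^ κ := Real.mul_rpow (by norm_num) hM0
    _ ≤ _ := mul_le_mul_of_nonneg_left hM2 (by positivity)

theorem log_rpow_le {κ x : ℝ} (hκ : 0 < κ) (hx : 1 ≤ x) : Real.log x ^ κ ≤ κ ^ κ * x := by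
  have hx0 : 0 ≤ x := by linarith
  have h1 := Real.log_le_rpow_div hx0 (inv_pos.2 hκ)
  rw [div_inv_eq_mul] at h1
  calc Real.log x ^ κ ≤ (x ^ κ⁻¹ * κ) ^ κ := Real.rpow_le_rpow (Real.log_nonneg hx) h1 hκ.le
    _ = κ ^ κ * x := by
      rw [Real.mul_rpow (by positivity) hκ.le, ← Real.rpow_mul hx0, inv_mul_cancel₀ hκ.ne',
        Real.rpow_one, mul_comm]

theorem log_rpow_le_root {κ : ℝ} (hκ : 0 < κ) {K d : ℕ} (hK : 1 ≤ K) (hd : 2 ≤ d) :
    Real.log K ^ κ ≤ (2 * κ) ^ κ * (K : ℝ) ^ (1 - 1 / (d : ℝ)) := by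
  have hK0 : (0 : ℝ) < K := by exact_mod_cast hK
  have hK1 : (1 : ℝ) ≤ K := by exact_mod_cast hK
  set y : ℝ := (K : ℝ) ^ (1 / 2 : ℝ) with hy
  have hy1 : 1 ≤ y := Real.one_le_rpow hK1 (by norm_num)
  have h1 : Real.log K = 2 * Real.log y := by
    rw [hy, Real.log_rpow hK0]
    ring
  have h3 : y ≤ (K : ℝ) ^ (1 - 1 / (d : ℝ)) := by
    refine Real.rpow_le_rpow_of_exponent_le hK1 ?_
    have hd' : (2 : ℝ) ≤ d := by exact_mod_cast hd
    have : 1 / (d : ℝ) ≤ 1 / 2 := one_div_le_one_div_of_le (by norm_num) hd'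
    linarith
  calc Real.log K ^ κ = 2 ^ κ * Real.log y ^ κ := by
        rw [h1, Real.mul_rpow (by norm_num) (Real.log_nonneg hy1)]
    _ ≤ 2 ^ κ * (κ ^ κ * y) :=
        mul_le_mul_of_nonneg_left (log_rpow_le hκ hy1) (by positivity)
    _ = (2 * κ) ^ κ * y := by
        rw [Real.mul_rpow (by norm_num) hκ.le]
        ring
    _ ≤ _ := mul_le_mul_of_nonneg_left h3 (by positivity)

/-- A matching of the elements such that every set with index in `L` separates few of its pairs. -/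
theorem crossing {n m t d : ℕ} (S : Fin m → Finset (Fin n)) (L : Finset (Fin m)) (hn : 0 < n)
    (hd : 2 ≤ d) (ht : ∀ i : Fin n, (univ.filter (fun j : Fin m => i ∈ S j)).card ≤ t)
    (hvc : ∀ J ⊆ L, DuallyShattered S J → J.card ≤ d) :
    1 ≤ patterns S L ∧ ∃ p : Fin n → Fin n, (∀ i, p (p i) = i) ∧ ∀ j ∈ L,
      (LowCrossingPaths.split p (S j) : ℝ) ≤
        36 * (t + (patterns S L : ℝ) ^ (1 - 1 / (d : ℝ))) := by
  classical
  have hd' : (2 : ℝ) ≤ d := by exact_mod_cast hd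
  have hd2 : 1 / (d : ℝ) ≤ 1 / 2 := one_div_le_one_div_of_le (by norm_num) hd'
  have hd0 : 0 ≤ 1 / (d : ℝ) := by positivity
  set K : ℕ := patterns S L with hKdef
  have hKn : K ≤ n := by
    rw [hKdef, patterns]
    refine card_image_le.trans ?_
    simp
  have hK1 : 1 ≤ K := by
    rw [hKdef, patterns, Nat.one_le_iff_ne_zero, Ne, card_eq_zero, image_eq_empty]
    intro h
    have : (⟨0, hn⟩ : Fin n) ∈ (univ : Finset (Fin n)) := mem_univ _
    rw [h] at this
    exact absurd this (notMem_empty _)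
  have hK1' : (1 : ℝ) ≤ K := by exact_mod_cast hK1
  have hK0 : (0 : ℝ) < K := by linarith
  set z : ℝ := (K : ℝ) ^ (1 - 1 / (d : ℝ)) with hz
  have hz1 : 1 ≤ z := Real.one_le_rpow hK1' (by linarith)
  have ht0 : (0 : ℝ) ≤ t := Nat.cast_nonneg t
  set w : Fin m → ℕ := fun j => if j ∈ L ∧ (S j).Nonempty then 1 else 0 with hw
  obtain ⟨p, hp1, -, hp3, hp4⟩ := matching S L (by omega) hvc n univ w (by
    intro j hj
    by_contra h
    exact hj (by rw [hw]; exact if_neg (fun h' => h h'.1))) (by simp)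
  -- the number of the sets
  have hW : ((∑ j, w j : ℕ) : ℝ) ≤ K * t := by
    have h1 : (∑ j, w j) = (L.filter (fun j => (S j).Nonempty)).card := by
      rw [hw]
      rw [Finset.card_eq_sum_ones, ← Finset.sum_filter]
      congr 1
      ext j
      simp
    rw [h1]
    exact_mod_cast number S L ht
  -- the crossings
  have hcr : ∀ j ∈ L, (S j).Nonempty →
      (((S j).filter (fun i => p i ∉ S j)).card : ℝ) ≤ 35 * (t + z) := by
    intro j hj hne
    have ht1 : 1 ≤ t := by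
      obtain ⟨i, hi⟩ := hne
      refine le_trans ?_ (ht i)
      exact card_pos.2 ⟨j, mem_filter.2 ⟨mem_univ _, hi⟩⟩
    have ht1' : (0 : ℝ) < t := by exact_mod_cast ht1
    set c := ((S j).filter (fun i => p i ∉ S j)).card with hc
    have h1 : (2 : ℝ) ^ c ≤ (K * t) * Real.exp (22 * z) := by
      have h2 : w j * 2 ^ c ≤ ∑ j, w j * 2 ^ ((S j).filter (fun i => p i ∉ S j)).card :=
        Finset.single_le_sum (f := fun j => w j * 2 ^ ((S j).filter (fun i => p i ∉ S j)).card)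
          (fun _ _ => Nat.zero_le _) (mem_univ j)
      have h3 : w j = 1 := by rw [hw]; exact if_pos ⟨hj, hne⟩
      rw [h3, one_mul] at h2
      have h4 : ((2 ^ c : ℕ) : ℝ) ≤
          ((∑ j, w j * 2 ^ ((S j).filter (fun i => p i ∉ S j)).card : ℕ) : ℝ) := by
        exact_mod_cast h2
      rw [Nat.cast_pow, Nat.cast_ofNat] at h4
      refine h4.trans (hp4.trans ?_)
      have h5 := Phi_le _ hd0 hd2 K n
      rw [min_eq_right hKn] at h5
      exact mul_le_mul hW h5 (Phi_nonneg _ _ _) (by positivity)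
    have h5 := Real.log_le_log (by positivity) h1
    rw [Real.log_pow, Real.log_mul (by positivity) (Real.exp_pos _).ne', Real.log_exp,
      Real.log_mul hK0.ne' ht1'.ne'] at h5
    have h6 := log_le K d hd hK1
    rw [← hz] at h6
    have h6' : Real.log t ≤ t - 1 := Real.log_le_sub_one_of_pos ht1'
    have h7 : (0.69 : ℝ) < Real.log 2 := by
      have := Real.log_two_gt_d9
      linarith
    have h8 : (c : ℝ) * 0.69 ≤ c * Real.log 2 :=
      mul_le_mul_of_nonneg_left h7.le (Nat.cast_nonneg _)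
    linarith
  refine ⟨hK1, p, hp1, ?_⟩
  intro j hj
  by_cases hne : (S j).Nonempty
  · have h1 := fixed_le p (S j) hp3
    have h2 : (LowCrossingPaths.split p (S j) : ℝ) ≤
        1 + ((S j).filter (fun i => p i ∉ S j)).card := by exact_mod_cast h1
    have h3 := hcr j hj hne
    linarith
  · have h1 : LowCrossingPaths.split p (S j) ≤ (S j).card := card_filter_le _ _
    rw [not_nonempty_iff_eq_empty.1 hne, card_empty] at h1
    have h2 : (LowCrossingPaths.split p (∅ : Finset (Fin n)) : ℝ) ≤ 0 := by exact_mod_cast h1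
    rw [not_nonempty_iff_eq_empty.1 hne]
    refine h2.trans ?_
    positivity

/-- The estimate of the logarithm. -/
theorem log_floor {κ z : ℝ} (hκ : 0 < κ) {t K k : ℕ} (ht : 1 ≤ t) (hK : 1 ≤ K) (hz0 : 0 ≤ z)
    (hzK : z ≤ K) :
    Real.log ((⌊36 * ((t : ℝ) + z)⌋₊ + k : ℕ) : ℝ) ^ κ ≤
      4 ^ κ * (145 * κ ^ κ + 1) * ((t : ℝ) + Real.log K ^ κ + Real.log k ^ κ) := by
  have ht1 : (1 : ℝ) ≤ t := by exact_mod_cast ht
  have hK1 : (1 : ℝ) ≤ K := by exact_mod_cast hK
  obtain ⟨k', hk'1, hk'k, hk'l⟩ : ∃ k' : ℝ, 1 ≤ k' ∧ (k : ℝ) ≤ k' ∧ Real.log k' = Real.log k := by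
    rcases Nat.eq_zero_or_pos k with h | h
    · refine ⟨1, le_rfl, ?_, ?_⟩
      · rw [h, Nat.cast_zero]
        exact zero_le_one
      · rw [h, Nat.cast_zero, Real.log_one, Real.log_zero]
    · exact ⟨k, by exact_mod_cast h, le_rfl, rfl⟩
  set N : ℕ := ⌊36 * ((t : ℝ) + z)⌋₊ + k with hN
  have hN1 : (1 : ℝ) ≤ N := by
    have : 1 ≤ ⌊36 * ((t : ℝ) + z)⌋₊ := Nat.le_floor (by rw [Nat.cast_one]; linarith)
    have h2 : 1 ≤ N := by omega
    exact_mod_cast h2
  have hNle : (N : ℝ) ≤ 144 * t * K * k' := by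
    have h1 : ((⌊36 * ((t : ℝ) + z)⌋₊ : ℕ) : ℝ) ≤ 36 * (t + z) := Nat.floor_le (by positivity)
    have h2 : (N : ℝ) = ((⌊36 * ((t : ℝ) + z)⌋₊ : ℕ) : ℝ) + k := by
      rw [hN, Nat.cast_add]
    have hKk : 1 ≤ (K : ℝ) * k' := one_le_mul_of_one_le_of_one_le hK1 hk'1
    have htK : 1 ≤ (t : ℝ) * K := one_le_mul_of_one_le_of_one_le ht1 hK1
    have h3 : (t : ℝ) ≤ t * K * k' := by
      rw [mul_assoc]
      exact le_mul_of_one_le_right (by linarith) hKk
    have h4 : (K : ℝ) ≤ t * K * k' :=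
      (le_mul_of_one_le_left (by linarith) ht1).trans (le_mul_of_one_le_right (by linarith) hk'1)
    have h5 : k' ≤ t * K * k' := le_mul_of_one_le_left (by linarith) htK
    linarith
  have hlog : Real.log N ≤ Real.log 144 + Real.log t + Real.log K + Real.log k' := by
    rw [← Real.log_mul (by norm_num) (by linarith), ← Real.log_mul (by positivity) (by linarith),
      ← Real.log_mul (by positivity) (by linarith)]
    exact Real.log_le_log (by linarith) hNle
  have h1 : Real.log (144 : ℝ) ^ κ ≤ κ ^ κ * 144 := log_rpow_le hκ (by norm_num)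
  have h2 : Real.log (t : ℝ) ^ κ ≤ κ ^ κ * t := log_rpow_le hκ ht1
  have hκκ : 0 < κ ^ κ := Real.rpow_pos_of_pos hκ κ
  have hlk : 0 ≤ Real.log k ^ κ := Real.rpow_nonneg (Real.log_natCast_nonneg k) _
  have hlK : 0 ≤ Real.log K ^ κ := Real.rpow_nonneg (Real.log_natCast_nonneg K) _
  calc Real.log (N : ℝ) ^ κ
      ≤ (Real.log 144 + Real.log t + Real.log K + Real.log k') ^ κ :=
        Real.rpow_le_rpow (Real.log_nonneg hN1) hlog hκ.le
    _ ≤ 4 ^ κ * (Real.log 144 ^ κ + Real.log t ^ κ + Real.log K ^ κ + Real.log k' ^ κ) :=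
        add4_rpow (Real.log_nonneg (by norm_num)) (Real.log_nonneg ht1) (Real.log_nonneg hK1)
          (Real.log_nonneg hk'1) hκ.le
    _ ≤ 4 ^ κ * ((145 * κ ^ κ + 1) * ((t : ℝ) + Real.log K ^ κ + Real.log k ^ κ)) := by
        refine mul_le_mul_of_nonneg_left ?_ (by positivity)
        rw [hk'l]
        have e1 : κ ^ κ * 144 ≤ κ ^ κ * (144 * t) :=
          mul_le_mul_of_nonneg_left (by linarith) hκκ.le
        have e2 : 0 ≤ κ ^ κ * Real.log K ^ κ := mul_nonneg hκκ.le hlK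
        have e3 : 0 ≤ κ ^ κ * Real.log k ^ κ := mul_nonneg hκκ.le hlk
        nlinarith
    _ = _ := by ring

theorem first (κ : ℝ) (hκ : 9 < κ) : ∃ C : ℝ, 0 < C ∧
    ∀ (n m t d k : ℕ) (S : Fin m → Finset (Fin n)) (L : Finset (Fin m)), 2 ≤ d →
      (∀ i : Fin n, (univ.filter (fun j : Fin m => i ∈ S j)).card ≤ t) →
      (∀ J ⊆ L, DuallyShattered S J → J.card ≤ d) → (∀ j, j ∉ L → (S j).card ≤ k) →
      ∃ χ : Fin n → ℤ, (∀ i, χ i = 1 ∨ χ i = -1) ∧
        (∀ j ∈ L, ((|∑ i ∈ S j, χ i| : ℤ) : ℝ) ≤ C * Real.sqrt ((t : ℝ) +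
          (patterns S L : ℝ) ^ (1 - 1 / (d : ℝ)) + Real.log k ^ κ)) ∧
        (∀ j, j ∉ L → ((|∑ i ∈ S j, χ i| : ℤ) : ℝ) ≤ C * Real.sqrt ((t : ℝ) + (S j).card +
          Real.log (patterns S L) ^ κ + Real.log k ^ κ)) := by
  classical
  have hκ0 : 0 < κ := by linarith
  obtain ⟨C, hC, hpair⟩ := pairing3 κ hκ
  set B₁ : ℝ := 4 ^ κ * (145 * κ ^ κ + 1) with hB₁
  have hB₁0 : 0 < B₁ := by positivity
  set B₂ : ℝ := (2 * κ) ^ κ with hB₂
  have hB₂0 : 0 < B₂ := by positivity
  refine ⟨C * Real.sqrt (37 + B₁ + B₁ * B₂), by positivity, ?_⟩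
  intro n m t d k S L hd ht hvc hk
  -- the degree zero case
  by_cases hemp : ∀ j, S j = ∅
  · refine ⟨fun _ => 1, fun _ => Or.inl rfl, fun j _ => ?_, fun j _ => ?_⟩
    · rw [hemp]
      simp only [Finset.sum_empty, abs_zero, Int.cast_zero]
      positivity
    · rw [hemp]
      simp only [Finset.sum_empty, abs_zero, Int.cast_zero]
      positivity
  push Not at hemp
  obtain ⟨j₀, i₀, hi₀⟩ := hemp
  have hn : 0 < n := i₀.pos
  have ht1 : 1 ≤ t := by
    refine le_trans ?_ (ht i₀)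
    exact card_pos.2 ⟨j₀, mem_filter.2 ⟨mem_univ _, hi₀⟩⟩
  obtain ⟨hK1, p, hp1, hsplitL⟩ := crossing S L hn hd ht hvc
  have hd' : (2 : ℝ) ≤ d := by exact_mod_cast hd
  have hd0 : 0 ≤ 1 / (d : ℝ) := by positivity
  have hlogK := log_rpow_le_root hκ0 hK1 hd
  set K : ℕ := patterns S L with hKdef
  have hK1' : (1 : ℝ) ≤ K := by exact_mod_cast hK1
  set z : ℝ := (K : ℝ) ^ (1 - 1 / (d : ℝ)) with hz
  have hz0 : 0 ≤ z := by positivity
  have hzK : z ≤ K := by
    have h1 : z ≤ (K : ℝ) ^ (1 : ℝ) :=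
      Real.rpow_le_rpow_of_exponent_le hK1' (by linarith)
    rwa [Real.rpow_one] at h1
  have ht0 : (0 : ℝ) ≤ t := Nat.cast_nonneg t
  have hlk : 0 ≤ Real.log k ^ κ := Real.rpow_nonneg (Real.log_natCast_nonneg k) _
  have hlK : 0 ≤ Real.log K ^ κ := Real.rpow_nonneg (Real.log_natCast_nonneg K) _
  have hlf := log_floor (k := k) hκ0 ht1 hK1 hz0 hzK
  rw [← hB₁] at hlf
  rw [← hB₂] at hlogK
  set N : ℕ := ⌊36 * ((t : ℝ) + z)⌋₊ + k with hN
  obtain ⟨χ, hχ1, hχ2⟩ := hpair n m t N S p hp1 ht (fun j => by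
    by_cases hj : j ∈ L
    · exact (Nat.le_floor (hsplitL j hj)).trans (Nat.le_add_right _ _)
    · have h1 : LowCrossingPaths.split p (S j) ≤ (S j).card := card_filter_le _ _
      exact (h1.trans (hk j hj)).trans (Nat.le_add_left _ _))
  have hprod : 0 ≤ B₁ * B₂ := by positivity
  refine ⟨χ, hχ1, fun j hj => (hχ2 j).trans ?_, fun j hj => (hχ2 j).trans ?_⟩
  · have h5 := hsplitL j hj
    set Q : ℝ := (t : ℝ) + z + Real.log k ^ κ with hQ
    have e1 : (t : ℝ) + z ≤ Q := by rw [hQ]; linarith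
    have e2 : (t : ℝ) + Real.log k ^ κ ≤ Q := by rw [hQ]; linarith
    have e3 : z ≤ Q := by rw [hQ]; linarith
    have e4 : B₁ * (t + Real.log K ^ κ + Real.log k ^ κ) ≤ B₁ * Q + B₁ * B₂ * Q := by
      have f1 : B₂ * z ≤ B₂ * Q := mul_le_mul_of_nonneg_left e3 hB₂0.le
      have f2 : (t : ℝ) + Real.log K ^ κ + Real.log k ^ κ ≤ Q + B₂ * Q := by linarith
      calc B₁ * (t + Real.log K ^ κ + Real.log k ^ κ) ≤ B₁ * (Q + B₂ * Q) :=
            mul_le_mul_of_nonneg_left f2 hB₁0.le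
        _ = _ := by ring
    calc C * Real.sqrt ((t : ℝ) + (LowCrossingPaths.split p (S j) : ℝ) + Real.log N ^ κ)
        ≤ C * Real.sqrt ((37 + B₁ + B₁ * B₂) * Q) := by
          refine mul_le_mul_of_nonneg_left (Real.sqrt_le_sqrt ?_) hC.le
          have g1 : (37 + B₁ + B₁ * B₂) * Q = 37 * Q + (B₁ * Q + B₁ * B₂ * Q) := by ring
          rw [g1]
          linarith
      _ = C * Real.sqrt (37 + B₁ + B₁ * B₂) * Real.sqrt Q := by
          rw [Real.sqrt_mul (by positivity)]
          ring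
  · have h5 : (LowCrossingPaths.split p (S j) : ℝ) ≤ (S j).card := by
      have h1 : LowCrossingPaths.split p (S j) ≤ (S j).card := card_filter_le _ _
      exact_mod_cast h1
    have h13 : (0 : ℝ) ≤ (S j).card := Nat.cast_nonneg _
    set Q : ℝ := (t : ℝ) + (S j).card + Real.log K ^ κ + Real.log k ^ κ with hQ
    have hQ0 : 0 ≤ Q := by positivity
    have e4 : B₁ * (t + Real.log K ^ κ + Real.log k ^ κ) ≤ B₁ * Q :=
      mul_le_mul_of_nonneg_left (by rw [hQ]; linarith) hB₁0.le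
    calc C * Real.sqrt ((t : ℝ) + (LowCrossingPaths.split p (S j) : ℝ) + Real.log N ^ κ)
        ≤ C * Real.sqrt ((37 + B₁ + B₁ * B₂) * Q) := by
          refine mul_le_mul_of_nonneg_left (Real.sqrt_le_sqrt ?_) hC.le
          have g1 : (37 + B₁ + B₁ * B₂) * Q = 37 * Q + B₁ * Q + B₁ * B₂ * Q := by ring
          have g2 : 0 ≤ B₁ * B₂ * Q := by positivity
          have g3 : (t : ℝ) + (S j).card ≤ Q := by rw [hQ]; linarith
          rw [g1]
          linarith
      _ = C * Real.sqrt (37 + B₁ + B₁ * B₂) * Real.sqrt Q := by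
          rw [Real.sqrt_mul (by positivity)]
          ring

/-- **Beck-Fiala and the dual VC-dimension of the large sets.** For every `κ > 9` there is a constant
`C` such that for all `n`, `m`, `t`, `k`, all `d ≥ 2`, all systems of `m` sets on `n` elements of
maximum degree at most `t` and every part `L` of the indices such that no `d + 1` of the sets with
index in `L` are dually shattered, if `K = patterns S L` is the number of different patterns of
membership in them:

(1) if the sets with index outside `L` have at most `k` elements, there is a colouring `χ` with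
`|χ(S_j)| ≤ C * sqrt (t + K^(1-1/d) + (log k)^κ)` for `j ∈ L` and
`|χ(S_j)| ≤ C * sqrt (t + |S_j| + (log K)^κ + (log k)^κ)` for `j ∉ L`;

(2) if, in addition, `K^(d-1) ≤ t^d` (for example, if `n^(d-1) ≤ t^d`), there is a colouring `χ` with
`|χ(S_j)| ≤ C * sqrt (t + (log k)^κ)` for `j ∈ L` and
`|χ(S_j)| ≤ C * sqrt (t + |S_j| + (log k)^κ)` for `j ∉ L`;

(3) if the sets with index outside `L` have at most `t` elements and `K^(d-1) ≤ t^d`, there is a
colouring `χ` with `|χ(S_j)| ≤ C * sqrt t` for all `j`. -/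
theorem result (κ : ℝ) (hκ : 9 < κ) :
    ∃ C : ℝ, 0 < C ∧
      (∀ (n m t d k : ℕ) (S : Fin m → Finset (Fin n)) (L : Finset (Fin m)), 2 ≤ d →
        (∀ i : Fin n, (univ.filter (fun j : Fin m => i ∈ S j)).card ≤ t) →
        (∀ J ⊆ L, DuallyShattered S J → J.card ≤ d) → (∀ j, j ∉ L → (S j).card ≤ k) →
        ∃ χ : Fin n → ℤ, (∀ i, χ i = 1 ∨ χ i = -1) ∧
          (∀ j ∈ L, ((|∑ i ∈ S j, χ i| : ℤ) : ℝ) ≤ C * Real.sqrt ((t : ℝ) +
            (patterns S L : ℝ) ^ (1 - 1 / (d : ℝ)) + Real.log k ^ κ)) ∧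
          (∀ j, j ∉ L → ((|∑ i ∈ S j, χ i| : ℤ) : ℝ) ≤ C * Real.sqrt ((t : ℝ) + (S j).card +
            Real.log (patterns S L) ^ κ + Real.log k ^ κ))) ∧
      (∀ (n m t d k : ℕ) (S : Fin m → Finset (Fin n)) (L : Finset (Fin m)), 2 ≤ d →
        (∀ i : Fin n, (univ.filter (fun j : Fin m => i ∈ S j)).card ≤ t) →
        (∀ J ⊆ L, DuallyShattered S J → J.card ≤ d) → (∀ j, j ∉ L → (S j).card ≤ k) →
        patterns S L ^ (d - 1) ≤ t ^ d →
        ∃ χ : Fin n → ℤ, (∀ i, χ i = 1 ∨ χ i = -1) ∧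
          (∀ j ∈ L, ((|∑ i ∈ S j, χ i| : ℤ) : ℝ) ≤
            C * Real.sqrt ((t : ℝ) + Real.log k ^ κ)) ∧
          (∀ j, j ∉ L → ((|∑ i ∈ S j, χ i| : ℤ) : ℝ) ≤
            C * Real.sqrt ((t : ℝ) + (S j).card + Real.log k ^ κ))) ∧
      (∀ (n m t d : ℕ) (S : Fin m → Finset (Fin n)) (L : Finset (Fin m)), 2 ≤ d →
        (∀ i : Fin n, (univ.filter (fun j : Fin m => i ∈ S j)).card ≤ t) →
        (∀ J ⊆ L, DuallyShattered S J → J.card ≤ d) → (∀ j, j ∉ L → (S j).card ≤ t) →
        patterns S L ^ (d - 1) ≤ t ^ d →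
        ∃ χ : Fin n → ℤ, (∀ i, χ i = 1 ∨ χ i = -1) ∧
          ∀ j : Fin m, ((|∑ i ∈ S j, χ i| : ℤ) : ℝ) ≤ C * Real.sqrt t) := by
  have hκ0 : 0 < κ := by linarith
  obtain ⟨C, hC, h⟩ := first κ hκ
  set A : ℝ := 2 + κ ^ κ + (2 * κ) ^ κ with hA
  have hκκ : 0 < κ ^ κ := Real.rpow_pos_of_pos hκ0 κ
  have hκ2 : 0 < (2 * κ) ^ κ := Real.rpow_pos_of_pos (by linarith) κ
  have hA1 : 1 ≤ A := by rw [hA]; linarith
  -- the number of patterns
  have hzt : ∀ (n m t d : ℕ) (S : Fin m → Finset (Fin n)) (L : Finset (Fin m)), 2 ≤ d →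
      patterns S L ^ (d - 1) ≤ t ^ d → (patterns S L : ℝ) ^ (1 - 1 / (d : ℝ)) ≤ t ∧
        Real.log (patterns S L) ^ κ ≤ (2 * κ) ^ κ * t := by
    intro n m t d S L hd hKt
    have ht0 : (0 : ℝ) ≤ t := Nat.cast_nonneg t
    have hd0 : (0 : ℝ) < d := by
      have : 0 < d := by omega
      exact_mod_cast this
    have hd1 : (1 : ℝ) / d ≤ 1 / 2 :=
      one_div_le_one_div_of_le (by norm_num) (by exact_mod_cast hd)
    have h6 : (patterns S L : ℝ) ^ (1 - 1 / (d : ℝ)) ≤ t := by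
      have h7 : ((patterns S L : ℝ) ^ (1 - 1 / (d : ℝ))) ^ d = (patterns S L : ℝ) ^ (d - 1) := by
        rw [← Real.rpow_natCast, ← Real.rpow_mul (Nat.cast_nonneg _), ← Real.rpow_natCast,
          Nat.cast_sub (by omega), Nat.cast_one]
        congr 1
        field_simp
      refine le_of_pow_le_pow_left₀ (n := d) (by omega) ht0 ?_
      rw [h7]
      exact_mod_cast hKt
    refine ⟨h6, ?_⟩
    rcases Nat.eq_zero_or_pos (patterns S L) with h0 | h0
    · rw [h0, Nat.cast_zero, Real.log_zero, Real.zero_rpow hκ0.ne']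
      positivity
    · exact (log_rpow_le_root hκ0 h0 hd).trans (mul_le_mul_of_nonneg_left h6 hκ2.le)
  have hscale : ∀ x y : ℝ, x ≤ A * y → C * Real.sqrt x ≤ C * Real.sqrt A * Real.sqrt y := by
    intro x y hxy
    calc C * Real.sqrt x ≤ C * Real.sqrt (A * y) :=
          mul_le_mul_of_nonneg_left (Real.sqrt_le_sqrt hxy) hC.le
      _ = C * Real.sqrt A * Real.sqrt y := by
          rw [Real.sqrt_mul (by linarith)]
          ring
  refine ⟨C * Real.sqrt A, by positivity, ?_, ?_, ?_⟩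
  · intro n m t d k S L hd ht hvc hk
    obtain ⟨χ, h1, h2, h3⟩ := h n m t d k S L hd ht hvc hk
    have hs4 : (1 : ℝ) ≤ Real.sqrt A := by
      rw [Real.one_le_sqrt]
      exact hA1
    have hCs : C ≤ C * Real.sqrt A := le_mul_of_one_le_right hC.le hs4
    exact ⟨χ, h1, fun j hj => (h2 j hj).trans
      (mul_le_mul_of_nonneg_right hCs (Real.sqrt_nonneg _)), fun j hj => (h3 j hj).trans
      (mul_le_mul_of_nonneg_right hCs (Real.sqrt_nonneg _))⟩
  · intro n m t d k S L hd ht hvc hk hKt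
    obtain ⟨χ, h1, h2, h3⟩ := h n m t d k S L hd ht hvc hk
    obtain ⟨hz, hl⟩ := hzt n m t d S L hd hKt
    have ht0 : (0 : ℝ) ≤ t := Nat.cast_nonneg t
    have hlk : 0 ≤ Real.log k ^ κ := Real.rpow_nonneg (Real.log_natCast_nonneg k) _
    refine ⟨χ, h1, fun j hj => (h2 j hj).trans (hscale _ _ ?_),
      fun j hj => (h3 j hj).trans (hscale _ _ ?_)⟩
    · set Q : ℝ := (t : ℝ) + Real.log k ^ κ with hQ
      have hQ0 : 0 ≤ Q := by positivity
      have e1 : 0 ≤ κ ^ κ * Q := by positivity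
      have e2 : 0 ≤ (2 * κ) ^ κ * Q := by positivity
      have e3 : A * Q = 2 * Q + κ ^ κ * Q + (2 * κ) ^ κ * Q := by rw [hA]; ring
      rw [e3]
      linarith
    · have h13 : (0 : ℝ) ≤ (S j).card := Nat.cast_nonneg _
      set Q : ℝ := (t : ℝ) + (S j).card + Real.log k ^ κ with hQ
      have hQ0 : 0 ≤ Q := by positivity
      have e1 : 0 ≤ κ ^ κ * Q := by positivity
      have e2 : (2 * κ) ^ κ * t ≤ (2 * κ) ^ κ * Q :=
        mul_le_mul_of_nonneg_left (by rw [hQ]; linarith) hκ2.le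
      have e3 : A * Q = 2 * Q + κ ^ κ * Q + (2 * κ) ^ κ * Q := by rw [hA]; ring
      rw [e3]
      linarith
  · intro n m t d S L hd ht hvc hk hKt
    obtain ⟨χ, h1, h2, h3⟩ := h n m t d t S L hd ht hvc hk
    obtain ⟨hz, hl⟩ := hzt n m t d S L hd hKt
    have ht0 : (0 : ℝ) ≤ t := Nat.cast_nonneg t
    have hlt : Real.log t ^ κ ≤ κ ^ κ * t := by
      rcases Nat.eq_zero_or_pos t with h8 | h8
      · subst h8
        rw [Nat.cast_zero, Real.log_zero, Real.zero_rpow hκ0.ne', mul_zero]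
      · exact log_rpow_le hκ0 (by exact_mod_cast h8)
    have e3 : A * (t : ℝ) = 2 * t + κ ^ κ * t + (2 * κ) ^ κ * t := by rw [hA]; ring
    have e4 : 0 ≤ (2 * κ) ^ κ * (t : ℝ) := by positivity
    refine ⟨χ, h1, fun j => ?_⟩
    by_cases hj : j ∈ L
    · refine (h2 j hj).trans (hscale _ _ ?_)
      rw [e3]
      linarith
    · refine (h3 j hj).trans (hscale _ _ ?_)
      have h11 : ((S j).card : ℝ) ≤ t := by exact_mod_cast hk j hj
      rw [e3]
      linarith

end Pool.Agent.Results.MP_e8ee11_co.DualVCDimension
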