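import Pool.Agent.Q271.LD3.Main3

set_option autoImplicit false

/-!
# Beck–Fiala with an additive power of the logarithm of the set size

For every `κ > 9` there is a constant `C` such that every set system of maximum degree at most
`t` whose sets have at most `k` elements has a colouring `χ` with
`|χ(S)| ≤ C √(t + |S| + (log k)^κ)` for every set `S` of the system. The bound does not depend
on the number of elements or sets.
-/

namespace Pool.Agent.Results.MP_e8ee11_co.LargeSetsPolylog

open Pool.Agent.H320R2.LD Pool.Agent.Q271.LD3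

theorem result (κ : ℝ) (hκ : 9 < κ) :
    ∃ C : ℝ, 0 < C ∧
      ∀ (n m t k : ℕ) (S : Fin m → Finset (Fin n)),
        (∀ i : Fin n, (Finset.univ.filter (fun j : Fin m => i ∈ S j)).card ≤ t) →
        (∀ j : Fin m, (S j).card ≤ k) →
        ∃ χ : Fin n → ℤ, (∀ i, χ i = 1 ∨ χ i = -1) ∧
          ∀ j : Fin m, ((|∑ i ∈ S j, χ i| : ℤ) : ℝ) ≤
            C * Real.sqrt ((t : ℝ) + ((S j).card : ℝ) + Real.log k ^ κ) := by
  have hκ0 : 0 < κ := by linarith
  have hx0 : 0 < κ⁻¹ := inv_pos.2 hκ0
  have hx9 : κ⁻¹ < (2 - 1) / 9 := by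
    rw [show ((2:ℝ) - 1) / 9 = (9:ℝ)⁻¹ by norm_num]
    exact inv_strictAnti₀ (by norm_num) hκ
  obtain ⟨C, hC, h⟩ := main3 1 κ⁻¹ le_rfl hx0 hx9
  -- a threshold above which `τ ≤ exp (τ^(1/κ))`
  obtain ⟨T0, hT0⟩ := Filter.eventually_atTop.mp
    (Pool.Agent.H320R2.LD.PARAM.ev_log κ⁻¹ 1 hx0 one_pos)
  set T : ℝ := max 1 T0 with hT
  have hT1 : 1 ≤ T := le_max_left _ _
  refine ⟨C * Real.sqrt (T + 1), by positivity, ?_⟩
  intro n m t k S h1 h2
  have hlogk0 : 0 ≤ Real.log k ^ κ := Real.rpow_nonneg (Real.log_natCast_nonneg k) _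
  set τ : ℝ := max T (max (t : ℝ) (Real.log k ^ κ)) with hτ
  have hτT : T ≤ τ := le_max_left _ _
  have hτ1 : 1 ≤ τ := hT1.trans hτT
  have hτ0 : 0 < τ := by linarith
  have hτt : (t : ℝ) ≤ τ := (le_max_left _ _).trans (le_max_right _ _)
  have hτk : Real.log k ^ κ ≤ τ := (le_max_right _ _).trans (le_max_right _ _)
  have hexpτ : τ ≤ Real.exp (τ ^ κ⁻¹) := by
    have e1 := hT0 τ ((le_max_right _ _).trans hτT)
    rw [one_mul] at e1
    calc τ = Real.exp (Real.log τ) := (Real.exp_log hτ0).symm
      _ ≤ _ := Real.exp_le_exp.2 e1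
  have hkexp : (k : ℝ) ≤ Real.exp (τ ^ κ⁻¹) := by
    rcases Nat.eq_zero_or_pos k with h0 | h0
    · rw [h0]
      simp only [Nat.cast_zero]
      exact (Real.exp_pos _).le
    · have hk0 : (0:ℝ) < k := by exact_mod_cast h0
      have e1 : Real.log k ≤ τ ^ κ⁻¹ := by
        calc Real.log k = (Real.log k ^ κ) ^ κ⁻¹ := by
              rw [← Real.rpow_mul (Real.log_natCast_nonneg k), mul_inv_cancel₀ hκ0.ne',
                Real.rpow_one]
          _ ≤ τ ^ κ⁻¹ := Real.rpow_le_rpow hlogk0 hτk hx0.le
      calc (k : ℝ) = Real.exp (Real.log k) := (Real.exp_log hk0).symm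
        _ ≤ _ := Real.exp_le_exp.2 e1
  -- row scale
  set w : Fin m → ℝ := fun j => max τ ((S j).card : ℝ) with hw
  have hwτ : ∀ j, τ ≤ w j := fun j => le_max_left _ _
  have hwS : ∀ j, ((S j).card : ℝ) ≤ w j := fun j => le_max_right _ _
  have hw0 : ∀ j, 0 < w j := fun j => lt_of_lt_of_le hτ0 (hwτ j)
  set A : Fin m → Fin n → ℝ := fun j i => if i ∈ S j then 1 / Real.sqrt (w j) else 0 with hA
  have hAsq : ∀ j i, A j i ^ 2 = if i ∈ S j then 1 / w j else 0 := by
    intro j i
    simp only [hA]
    split_ifs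
    · rw [div_pow, Real.sq_sqrt (hw0 j).le, one_pow]
    · norm_num
  have hAne : ∀ j i, A j i ≠ 0 → i ∈ S j := by
    intro j i hne
    by_contra hni
    apply hne
    simp only [hA, if_neg hni]
  have hdeg : ∀ i : Fin n, ((Finset.univ.filter (fun j : Fin m => i ∈ S j)).card : ℝ) ≤ t :=
    fun i => by exact_mod_cast h1 i
  have hadm : Adm3 τ 1 κ⁻¹ A := by
    refine ⟨fun j i => ?_, fun j => ?_, fun i => ?_, fun j => ?_, fun i => ?_, fun y => ?_⟩
    · rw [hAsq]
      split_ifs
      · rw [div_mul_eq_mul_div, one_mul, div_le_one (hw0 j)]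
        exact hwτ j
      · norm_num
    · simp_rw [hAsq]
      rw [← Finset.sum_filter, Finset.sum_const, nsmul_eq_mul]
      have e1 : Finset.univ.filter (fun i => i ∈ S j) = S j := by ext i; simp
      rw [e1, mul_one_div, div_le_one (hw0 j)]
      exact hwS j
    · simp_rw [hAsq]
      calc ∑ j, (if i ∈ S j then 1 / w j else 0) ≤ ∑ j, (if i ∈ S j then 1 / τ else 0) := by
            refine Finset.sum_le_sum fun j _ => ?_
            split_ifs
            · exact one_div_le_one_div_of_le hτ0 (hwτ j)
            · exact le_rfl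
        _ = ((Finset.univ.filter (fun j : Fin m => i ∈ S j)).card : ℝ) * (1 / τ) := by
            rw [← Finset.sum_filter, Finset.sum_const, nsmul_eq_mul]
        _ ≤ 1 := by
            rw [mul_one_div, div_le_one hτ0]
            exact (hdeg i).trans hτt
    · refine le_trans ?_ hkexp
      have e1 : (Finset.univ.filter (fun i => A j i ≠ 0)).card ≤ (S j).card :=
        Finset.card_le_card fun i hi => hAne j i (Finset.mem_filter.1 hi).2
      exact_mod_cast e1.trans (h2 j)
    · refine le_trans ?_ (hτt.trans hexpτ)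
      have e1 : (Finset.univ.filter (fun j => A j i ≠ 0)).card ≤
          (Finset.univ.filter (fun j : Fin m => i ∈ S j)).card :=
        Finset.card_le_card fun j hj => Finset.mem_filter.2
          ⟨Finset.mem_univ _, hAne j i (Finset.mem_filter.1 hj).2⟩
      exact_mod_cast e1.trans (h1 i)
    · rw [Real.rpow_one]
      have e1 : ∀ j, (∑ i, |A j i| * |y i|) ^ 2 ≤ ∑ i, (if i ∈ S j then y i ^ 2 else 0) := by
        intro j
        have c1 : ∑ i, |A j i| * |y i| = ∑ i ∈ S j, (1 / Real.sqrt (w j)) * |y i| := by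
          have c2 : S j = Finset.univ.filter (fun i => i ∈ S j) := by ext i; simp
          rw [c2, Finset.sum_filter]
          refine Finset.sum_congr rfl fun i _ => ?_
          simp only [hA, Finset.mem_filter, Finset.mem_univ, true_and]
          split_ifs
          · rw [abs_of_nonneg (by positivity)]
          · simp
        rw [c1]
        have cs := Finset.sum_mul_sq_le_sq_mul_sq (S j) (fun _ => 1 / Real.sqrt (w j))
          (fun i => |y i|)
        refine cs.trans ?_
        rw [Finset.sum_const, nsmul_eq_mul, div_pow, one_pow, Real.sq_sqrt (hw0 j).le]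
        have c3 : ((S j).card : ℝ) * (1 / w j) ≤ 1 := by
          rw [mul_one_div, div_le_one (hw0 j)]
          exact hwS j
        have c4 : ∑ i ∈ S j, |y i| ^ 2 = ∑ i, (if i ∈ S j then y i ^ 2 else 0) := by
          rw [← Finset.sum_filter]
          have c2 : Finset.univ.filter (fun i => i ∈ S j) = S j := by ext i; simp
          rw [c2]
          exact Finset.sum_congr rfl fun i _ => sq_abs _
        rw [c4]
        refine mul_le_of_le_one_left ?_ c3
        refine Finset.sum_nonneg fun i _ => ?_
        split_ifs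
        · exact sq_nonneg _
        · exact le_rfl
      calc ∑ j, (∑ i, |A j i| * |y i|) ^ 2
          ≤ ∑ j, ∑ i, (if i ∈ S j then y i ^ 2 else 0) := Finset.sum_le_sum fun j _ => e1 j
        _ = ∑ i, ∑ j, (if i ∈ S j then y i ^ 2 else 0) := Finset.sum_comm
        _ ≤ ∑ i, τ * y i ^ 2 := by
            refine Finset.sum_le_sum fun i _ => ?_
            rw [← Finset.sum_filter, Finset.sum_const, nsmul_eq_mul]
            exact mul_le_mul_of_nonneg_right ((hdeg i).trans hτt) (sq_nonneg _)
        _ = τ * nsq y := by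
            unfold nsq
            rw [← Finset.mul_sum]
  obtain ⟨y, hy1, hy2⟩ := h τ hτ1 (Fin n) (Fin m) A hadm
  refine ⟨fun i => if y i = 1 then 1 else -1, fun i => ?_, fun j => ?_⟩
  · by_cases hi : y i = 1
    · left; simp [hi]
    · right; simp [hi]
  · have hcast : ∀ i, (((if y i = 1 then 1 else -1 : ℤ)) : ℝ) = y i := by
      intro i
      rcases hy1 i with hi | hi
      · simp [hi]
      · rw [hi, if_neg (by norm_num)]
        norm_num
    have hsum : ((|∑ i ∈ S j, (if y i = 1 then 1 else -1 : ℤ)| : ℤ) : ℝ) = |∑ i ∈ S j, y i| := by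
      push_cast
      congr 1
      exact Finset.sum_congr rfl fun i _ => by
        have := hcast i
        push_cast at this
        exact this
    rw [hsum]
    rcases Finset.eq_empty_or_nonempty (S j) with he | hne
    · rw [he]
      simp only [Finset.sum_empty, abs_zero]
      positivity
    · have hcard1 : (1:ℝ) ≤ ((S j).card : ℝ) := by
        exact_mod_cast Finset.card_pos.2 hne
      have h3 := hy2 j
      have h4 : ∑ i, A j i * y i = (1 / Real.sqrt (w j)) * ∑ i ∈ S j, y i := by
        have c2 : S j = Finset.univ.filter (fun i => i ∈ S j) := by ext i; simp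
        rw [Finset.mul_sum, c2, Finset.sum_filter]
        refine Finset.sum_congr rfl fun i _ => ?_
        simp only [hA]
        split_ifs
        · rfl
        · ring
      have hsw : 0 < Real.sqrt (w j) := Real.sqrt_pos.2 (hw0 j)
      rw [h4, abs_mul, abs_of_pos (by positivity : 0 < 1 / Real.sqrt (w j)), one_div,
        ← div_eq_inv_mul, div_le_iff₀ hsw] at h3
      refine h3.trans ?_
      rw [mul_assoc]
      refine mul_le_mul_of_nonneg_left ?_ hC.le
      rw [← Real.sqrt_mul (by linarith)]
      refine Real.sqrt_le_sqrt ?_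
      set Q : ℝ := (t : ℝ) + ((S j).card : ℝ) + Real.log k ^ κ with hQ
      have ht0 : (0:ℝ) ≤ t := Nat.cast_nonneg t
      have hQ1 : 1 ≤ Q := by rw [hQ]; linarith
      have hTQ : T ≤ (T + 1) * Q := by nlinarith
      have hQQ : Q ≤ (T + 1) * Q := by nlinarith
      refine max_le (max_le hTQ (max_le ?_ ?_)) ?_
      · refine le_trans ?_ hQQ
        rw [hQ]; linarith
      · refine le_trans ?_ hQQ
        rw [hQ]; linarith
      · refine le_trans ?_ hQQ
        rw [hQ]; linarith

end Pool.Agent.Results.MP_e8ee11_co.LargeSetsPolylog
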