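import Mathlib
import Pool.Agent.Q156.Kom.Tails

/-!
# The Beck–Fiala problem: random colourings with fast decreasing tails for all sets

Let `S_1, …, S_m` be subsets of an `n`-element set of maximum degree at most `t`, and let
`K (L) = min (√t L^{1/4}) (√t + (1 + log t)^{3/2} √L)`.

(1) There is a probability distribution on the colourings such that for every set `S_i` and every
`u ≥ 0` the discrepancy of `S_i` is larger than `C K (1 + u + log max (1, |S_i| / t))` with
probability at most `exp (-u)`. The constant `C` is absolute; `m` and `n` do not occur.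

(2) So if `b_1, …, b_m ≥ 1` satisfy `∑_i max (1, |S_i| / t) exp (1 - b_i) < 1`, then there is a
colouring for which the discrepancy of `S_i` is at most `C K (b_i)` for all `i`.
-/

set_option autoImplicit false

namespace Pool.Agent.Results.MP_e8ee11_co.UniformTails

open Finset

/-- `min (√t L^{1/4}) (√t + (1 + log t)^{3/2} √L)` -/
noncomputable def K (t : ℕ) (L : ℝ) : ℝ :=
  min (Real.sqrt t * L ^ (1 / 4 : ℝ)) (Real.sqrt t + (1 + Real.log t) ^ (3 / 2 : ℝ) * Real.sqrt L)

theorem K_ge {t : ℕ} (ht : 1 ≤ t) {L : ℝ} (hL : 0 ≤ L) :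
    Real.sqrt t * Q156.Kom.K (Q156.Kom.kap (1 / Real.sqrt t)) L ≤ K t L := by
  have htR : (1 : ℝ) ≤ t := by exact_mod_cast ht
  have hst : 0 < Real.sqrt t := Real.sqrt_pos.2 (by linarith)
  unfold Q156.Kom.K Q156.Kom.kap Q156.Kom.qt K
  rw [mul_min_of_nonneg _ _ hst.le]
  refine min_le_min (le_of_eq ?_) ?_
  · rw [Real.sqrt_eq_rpow (Real.sqrt L), Real.sqrt_eq_rpow L, ← Real.rpow_mul hL]
    norm_num
  · have hlog : 0 ≤ Real.log t := Real.log_nonneg htR
    have e1 : Real.log (1 / (1 / Real.sqrt t)) = Real.log t / 2 := by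
      rw [one_div_one_div, Real.log_sqrt (by linarith)]
    rw [e1]
    have h1 : (1 + Real.log t / 2) ^ (3 / 2 : ℝ) ≤ (1 + Real.log t) ^ (3 / 2 : ℝ) :=
      Real.rpow_le_rpow (by linarith) (by linarith) (by norm_num)
    have h2 : Real.sqrt t * (1 + 1 / Real.sqrt t * (1 + Real.log t / 2) ^ (3 / 2 : ℝ) *
        Real.sqrt L) = Real.sqrt t + (1 + Real.log t / 2) ^ (3 / 2 : ℝ) * Real.sqrt L := by
      field_simp
    rw [h2]
    have := mul_le_mul_of_nonneg_right h1 (Real.sqrt_nonneg L)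
    linarith

theorem result : ∃ C : ℝ, 0 < C ∧ ∀ (m n t : ℕ) (S : Fin m → Finset (Fin n)), 1 ≤ t →
    (∀ j, (univ.filter (fun i => j ∈ S i)).card ≤ t) →
    (∃ (M : ℕ) (w : Fin M → ℝ) (χ : Fin M → Fin n → ℤ),
      (∀ r, 0 ≤ w r) ∧ ∑ r, w r = 1 ∧ (∀ r j, χ r j = 1 ∨ χ r j = -1) ∧
      ∀ (i : Fin m) (u : ℝ), 0 ≤ u →
        ∑ r ∈ univ.filter (fun r =>
          C * K t (1 + u + Real.log (max 1 ((S i).card / t))) < |((∑ j ∈ S i, χ r j : ℤ) : ℝ)|),
          w r ≤ Real.exp (-u)) ∧
    ∀ b : Fin m → ℝ, (∀ i, 1 ≤ b i) →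
      ∑ i, max 1 ((S i).card / t : ℝ) * Real.exp (1 - b i) < 1 →
      ∃ χ : Fin n → ℤ, (∀ j, χ j = 1 ∨ χ j = -1) ∧
        ∀ i, |((∑ j ∈ S i, χ j : ℤ) : ℝ)| ≤ C * K t (b i) := by
  classical
  refine ⟨36000000000, by norm_num, fun m n t S ht hdeg => ?_⟩
  have htR : (1 : ℝ) ≤ t := by exact_mod_cast ht
  have hst : 0 < Real.sqrt t := Real.sqrt_pos.2 (by linarith)
  have hst1 : 1 ≤ Real.sqrt t := Real.one_le_sqrt.2 htR
  have hst2 : Real.sqrt t ^ 2 = t := Real.sq_sqrt (by linarith)
  set δ : ℝ := 1 / Real.sqrt t with hδ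
  have hδ0 : 0 < δ := by positivity
  have hδ1 : δ ≤ 1 := by rw [hδ, div_le_one hst]; exact hst1
  set A : Fin m → Fin n → ℝ := fun i j => if j ∈ S i then δ else 0 with hA
  have hAsq : ∀ i j, A i j ^ 2 = if j ∈ S i then (1 : ℝ) / t else 0 := by
    intro i j
    simp only [hA]
    split_ifs
    · rw [hδ, div_pow, hst2, one_pow]
    · norm_num
  have hcol : ∀ j, ∑ i, A i j ^ 2 ≤ 1 := by
    intro j
    simp only [hAsq]
    rw [← Finset.sum_filter, Finset.sum_const, nsmul_eq_mul, mul_one_div, div_le_one (by linarith)]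
    exact_mod_cast hdeg j
  have hE : ∀ i, ∑ j, A i j ^ 2 = (S i).card / t := by
    intro i
    simp only [hAsq]
    rw [Finset.sum_ite_mem, Finset.univ_inter, Finset.sum_const, nsmul_eq_mul, mul_one_div]
  obtain ⟨M, w, x, hw0, hw1, hx, htl⟩ := Q156.Kom.distribution (Q156.Kom.kap_pos hδ0 hδ1)
    (Q156.Kom.part_of_entries A δ hδ0 hδ1 (fun i j => by
      simp only [hA]
      split_ifs
      · rw [abs_of_pos hδ0]
      · rw [abs_zero]; exact hδ0.le) hcol)
  set χ : Fin M → Fin n → ℤ := fun r j => if x r j = 1 then 1 else -1 with hχ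
  have hχx : ∀ r j, ((χ r j : ℤ) : ℝ) = x r j := by
    intro r j
    simp only [hχ]
    rcases hx r j with h | h
    · rw [if_pos h, h]; norm_num
    · rw [if_neg (by rw [h]; norm_num), h]; norm_num
  have hsum : ∀ r i, ∑ j, A i j * x r j = δ * ((∑ j ∈ S i, χ r j : ℤ) : ℝ) := by
    intro r i
    push_cast
    simp only [hχx, hA, ite_mul, zero_mul]
    rw [Finset.sum_ite_mem, Finset.univ_inter, Finset.mul_sum]
  have hlog : ∀ i, 0 ≤ Real.log (max 1 ((S i).card / t : ℝ)) :=
    fun i => Real.log_nonneg (le_max_left _ _)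
  have htail : ∀ (i : Fin m) (u : ℝ), 0 ≤ u →
      ∑ r ∈ univ.filter (fun r => 36000000000 *
        K t (1 + u + Real.log (max 1 ((S i).card / t))) < |((∑ j ∈ S i, χ r j : ℤ) : ℝ)|), w r ≤
        Real.exp (-u) := by
    intro i u hu
    refine le_trans ?_ (htl i u hu)
    refine Finset.sum_le_sum_of_subset_of_nonneg ?_ fun r _ _ => hw0 r
    intro r hr
    rw [mem_filter] at hr ⊢
    refine ⟨mem_univ _, ?_⟩
    have h1 := hr.2
    rw [hE, hsum, abs_mul, abs_of_pos hδ0]
    have hL : 0 ≤ 1 + u + Real.log (max 1 ((S i).card / t : ℝ)) := by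
      have := hlog i
      linarith
    have h2 := K_ge ht hL
    have h3 : 36000000000 * (Real.sqrt t * Q156.Kom.K (Q156.Kom.kap δ)
        (1 + u + Real.log (max 1 ((S i).card / t : ℝ)))) < |((∑ j ∈ S i, χ r j : ℤ) : ℝ)| := by
      refine lt_of_le_of_lt ?_ h1
      linarith
    have h4 := mul_lt_mul_of_pos_left h3 hδ0
    refine lt_of_le_of_lt (le_of_eq ?_) h4
    have e1 : δ * Real.sqrt t = 1 := by rw [hδ]; field_simp
    calc 36000000000 * Q156.Kom.K (Q156.Kom.kap δ) (1 + u + Real.log (max 1 ((S i).card / t : ℝ)))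
        = (δ * Real.sqrt t) * (36000000000 * Q156.Kom.K (Q156.Kom.kap δ)
            (1 + u + Real.log (max 1 ((S i).card / t : ℝ)))) := by rw [e1, one_mul]
      _ = _ := by ring
  refine ⟨⟨M, w, χ, hw0, hw1, fun r j => ?_, htail⟩, fun b hb hsum' => ?_⟩
  · simp only [hχ]
    split_ifs <;> simp
  have hmax : ∀ i, (1 : ℝ) ≤ max 1 ((S i).card / t : ℝ) := fun i => le_max_left _ _
  set u : Fin m → ℝ := fun i => b i - 1 - Real.log (max 1 ((S i).card / t : ℝ)) with hu
  have hexp : ∀ i, Real.exp (-u i) = max 1 ((S i).card / t : ℝ) * Real.exp (1 - b i) := by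
    intro i
    have e1 : -u i = Real.log (max 1 ((S i).card / t : ℝ)) + (1 - b i) := by
      simp only [hu]; ring
    rw [e1, Real.exp_add, Real.exp_log (by linarith [hmax i])]
  have hu0 : ∀ i, 0 ≤ u i := by
    intro i
    have h1 := Finset.single_le_sum (f := fun i => max 1 ((S i).card / t : ℝ) * Real.exp (1 - b i))
      (fun i _ => mul_nonneg (by linarith [hmax i]) (Real.exp_pos _).le) (Finset.mem_univ i)
    rw [← hexp i] at h1
    have h2 : Real.exp (-u i) < 1 := lt_of_le_of_lt h1 hsum'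
    rw [Real.exp_lt_one_iff] at h2
    linarith
  by_contra hcon
  push Not at hcon
  have hbad : ∀ r, ∃ i, 36000000000 * K t (b i) < |((∑ j ∈ S i, χ r j : ℤ) : ℝ)| := by
    intro r
    exact hcon (χ r) (fun j => by simp only [hχ]; split_ifs <;> simp)
  have h1 : (1 : ℝ) ≤ ∑ i, Real.exp (-u i) := by
    calc (1 : ℝ) = ∑ r, w r := hw1.symm
      _ ≤ ∑ r, ∑ i, (if 36000000000 * K t (b i) < |((∑ j ∈ S i, χ r j : ℤ) : ℝ)|
            then w r else 0) := by
          refine Finset.sum_le_sum fun r _ => ?_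
          obtain ⟨i, hi⟩ := hbad r
          have h2 := Finset.single_le_sum
            (f := fun i => if 36000000000 * K t (b i) < |((∑ j ∈ S i, χ r j : ℤ) : ℝ)|
              then w r else 0)
            (fun i _ => by
              split_ifs
              · exact hw0 r
              · exact le_rfl) (Finset.mem_univ i)
          simp only [if_pos hi] at h2
          exact h2
      _ = ∑ i, ∑ r ∈ univ.filter (fun r =>
            36000000000 * K t (b i) < |((∑ j ∈ S i, χ r j : ℤ) : ℝ)|), w r := by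
          rw [Finset.sum_comm]
          refine Finset.sum_congr rfl fun i _ => ?_
          rw [Finset.sum_filter]
      _ ≤ ∑ i, Real.exp (-u i) := by
          refine Finset.sum_le_sum fun i _ => ?_
          have h2 := htail i (u i) (hu0 i)
          have e1 : 1 + u i + Real.log (max 1 ((S i).card / t : ℝ)) = b i := by
            simp only [hu]; ring
          rwa [e1] at h2
  have h2 : ∑ i, Real.exp (-u i) < 1 := by
    simp only [hexp]
    exact hsum'
  linarith

end Pool.Agent.Results.MP_e8ee11_co.UniformTails
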